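import Pool.Agent.Lib_helper52.EPS.Defs
import Pool.Agent.Lib_helper73.EPS.C0
import Pool.Agent.Lib_helper83.EPS.C1
set_option autoImplicit false

namespace Pool.Agent.EPS

open MeasureTheory Set Filter Topology

variable {G : Type*} [MeasureSpace G] [TopologicalSpace G] [AddCommGroup G]
  [IsTopologicalAddGroup G] [BorelSpace G] [SecondCountableTopology G] [LocallyCompactSpace G]
  [T2Space G] [(volume : Measure G).IsAddHaarMeasure]
variable {H : Type*} [MeasureSpace H] [TopologicalSpace H] [AddCommGroup H]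
  [IsTopologicalAddGroup H] [BorelSpace H] [SecondCountableTopology H] [LocallyCompactSpace H]
  [T2Space H] [(volume : Measure H).IsAddHaarMeasure]

omit [LocallyCompactSpace G] [T2Space G] [(volume : Measure G).IsAddHaarMeasure]
  [SecondCountableTopology G] in
theorem c2_mul {u v : G → ℝ} (hu : Bdc u) (hv : Bdc v) (c : G) :
    Bdc (fun p => u p * v (c - p)) := by
  obtain ⟨Mu, hMu⟩ := hu.bd
  obtain ⟨Mv, hMv⟩ := hv.bd
  obtain ⟨K, hK, hK0⟩ := hu.supp
  refine ⟨hu.meas.mul (hv.meas.comp (continuous_const.sub continuous_id).measurable),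
    fun x => mul_nonneg (hu.nn x) (hv.nn _), ⟨max Mu 0 * max Mv 0, fun x => ?_⟩,
    ⟨K, hK, fun x hx => by rw [hK0 x hx, zero_mul]⟩⟩
  exact mul_le_mul ((hMu x).trans (le_max_left _ _)) ((hMv _).trans (le_max_left _ _)) (hv.nn _)
    (le_max_right _ _)

/-- slices of a convolution on a product -/
theorem cv_slice {u v : G × H → ℝ} (hu : Bdc u) (hv : Bdc v) (t : G) (w : H) :
    cv u v (t, w) = ∫ x, cv (fun y => u (x, y)) (fun y => v (t - x, y)) w := by
  have hi : Integrable (fun p : G × H => u p * v ((t, w) - p)) := bdc_int (c2_mul hu hv (t, w))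
  rw [cv, Measure.volume_eq_prod, integral_prod _ (by rwa [Measure.volume_eq_prod] at hi)]
  rfl

/-- the family of convolutions of slices -/
theorem bdc_family {u v : G × H → ℝ} (hu : Bdc u) (hv : Bdc v) (t : G) :
    Bdc (fun p : G × H => cv (fun y => u (p.1, y)) (fun y => v (t - p.1, y)) p.2) := by
  obtain ⟨Mv, hMv⟩ := hv.bd
  obtain ⟨Mm, hMm⟩ := (bdc_marg hu).bd
  obtain ⟨Ku, hKu, hKu0⟩ := hu.supp
  obtain ⟨Kv, hKv, hKv0⟩ := hv.supp
  refine ⟨?_, fun p => ?_, ⟨max Mv 0 * Mm, fun p => ?_⟩,
    ⟨(Prod.fst '' Ku) ×ˢ ((fun q : H × H => q.1 + q.2) '' ((Prod.snd '' Ku) ×ˢ (Prod.snd '' Kv))),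
      ?_, fun p hp => ?_⟩⟩
  · have h1 : Measurable (fun q : (G × H) × H => u (q.1.1, q.2) * v (t - q.1.1, q.1.2 - q.2)) := by
      refine (hu.meas.comp ?_).mul (hv.meas.comp ?_)
      · exact (measurable_fst.comp measurable_fst).prodMk measurable_snd
      · refine Measurable.prodMk ?_ ?_
        · exact (continuous_const.sub (continuous_fst.comp continuous_fst)).measurable
        · exact ((continuous_snd.comp continuous_fst).sub continuous_snd).measurable
    exact (StronglyMeasurable.integral_prod_right (ν := (volume : Measure H))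
      (f := fun (p : G × H) (y : H) => u (p.1, y) * v (t - p.1, p.2 - y))
      h1.stronglyMeasurable).measurable
  · exact integral_nonneg fun y => mul_nonneg (hu.nn _) (hv.nn _)
  · have h1 : Integrable (fun y => u (p.1, y) * v (t - p.1, p.2 - y)) :=
      bdc_int (c2_mul (bdc_slice hu p.1) (bdc_slice hv (t - p.1)) p.2)
    have h2 : Integrable (fun y => max Mv 0 * u (p.1, y)) :=
      (bdc_int (bdc_slice hu p.1)).const_mul _
    calc cv (fun y => u (p.1, y)) (fun y => v (t - p.1, y)) p.2
        ≤ ∫ y, max Mv 0 * u (p.1, y) := by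
          refine integral_mono h1 h2 fun y => ?_
          show u (p.1, y) * v (t - p.1, p.2 - y) ≤ max Mv 0 * u (p.1, y)
          rw [mul_comm]
          exact mul_le_mul_of_nonneg_right ((hMv _).trans (le_max_left _ _)) (hu.nn _)
      _ = max Mv 0 * ∫ y, u (p.1, y) := integral_const_mul _ _
      _ ≤ max Mv 0 * Mm := mul_le_mul_of_nonneg_left (hMm p.1) (le_max_right _ _)
  · exact (hKu.image continuous_fst).prod
      (((hKu.image continuous_snd).prod (hKv.image continuous_snd)).image continuous_add)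
  · have h0 : ∀ y, u (p.1, y) * v (t - p.1, p.2 - y) = 0 := by
      intro y
      by_cases h1 : (p.1, y) ∈ Ku
      · by_cases h2 : (t - p.1, p.2 - y) ∈ Kv
        · exfalso
          apply hp
          refine ⟨⟨_, h1, rfl⟩, ?_⟩
          exact ⟨(y, p.2 - y), ⟨⟨_, h1, rfl⟩, ⟨_, h2, rfl⟩⟩, add_sub_cancel y p.2⟩
        · rw [hKv0 _ h2, mul_zero]
      · rw [hKu0 _ h1, zero_mul]
    show ∫ y, u (p.1, y) * v (t - p.1, p.2 - y) = 0
    rw [integral_congr_ae (Filter.Eventually.of_forall h0), integral_zero]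

/-- marginals of a convolution on a product -/
theorem cv_marg {u v : G × H → ℝ} (hu : Bdc u) (hv : Bdc v) (t : G) :
    ∫ w, cv u v (t, w) = cv (fun x => ∫ y, u (x, y)) (fun x => ∫ y, v (x, y)) t := by
  have hi : Integrable (fun p : G × H => cv (fun y => u (p.1, y)) (fun y => v (t - p.1, y)) p.2) :=
    bdc_int (bdc_family hu hv t)
  rw [Measure.volume_eq_prod] at hi
  calc ∫ w, cv u v (t, w)
      = ∫ w, ∫ x, cv (fun y => u (x, y)) (fun y => v (t - x, y)) w := by
        refine integral_congr_ae (Filter.Eventually.of_forall fun w => ?_)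
        exact cv_slice hu hv t w
    _ = ∫ x, ∫ w, cv (fun y => u (x, y)) (fun y => v (t - x, y)) w :=
        (integral_integral_swap hi).symm
    _ = cv (fun x => ∫ y, u (x, y)) (fun x => ∫ y, v (x, y)) t := by
        refine integral_congr_ae (Filter.Eventually.of_forall fun x => ?_)
        exact cv_mass (bdc_slice hu x) (bdc_slice hv (t - x))

end Pool.Agent.EPS
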